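import Pool.Agent.H33.WF4

set_option autoImplicit false

open Pool.Agent.H33 Pool.Agent.H33.WF1

namespace Pool.Agent.Results.MP_4fd693_gt.DiamondAB

theorem result (h : DiaDefs.Diamond) : ∃ (X : Type) (_ : TopologicalSpace X), CompactSpace X ∧
    T2Space X ∧ WeaklyFC X ∧ (∃ S : Set X, ¬ AlphaRealcompact S) ∧ ¬ RadonSpace X :=
  WF4.partAB h

end Pool.Agent.Results.MP_4fd693_gt.DiamondAB
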