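import Pool.Agent.H33.WF2

set_option autoImplicit false

open Pool.Agent.H33 Pool.Agent.H33.WF1

namespace Pool.Agent.Results.MP_4fd693_gt.PartC

theorem result : ∃ (X : Type) (_ : TopologicalSpace X), CompactSpace X ∧ T2Space X ∧ WeaklyFC X ∧
    ∃ S : Set X, ¬ WeaklyThetaRefinable S := by
  obtain ⟨X, τ, a, b, c, d⟩ := WF2.partC
  exact ⟨X, τ, a, b, wfc_of_fc X, d⟩

end Pool.Agent.Results.MP_4fd693_gt.PartC
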